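import Mathlib

set_option autoImplicit false

/-!
# Fractional covers by dyadic cubes can be replaced by covers
-/

open MeasureTheory Set Filter Topology
open scoped ENNReal NNReal

namespace Pool.Agent.Q321.Kk

variable {d : ℕ}

/-- the dyadic cube of level `n` which contains `z` -/
noncomputable def fl (n : ℕ) (z : EuclideanSpace ℝ (Fin d)) : Fin d → ℤ := fun i => ⌊(2 : ℝ) ^ n * z i⌋

/-- a point of the cube number `q` of level `n` -/
noncomputable def corner (n : ℕ) (q : Fin d → ℤ) : EuclideanSpace ℝ (Fin d) :=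
  WithLp.toLp 2 (fun i => (q i : ℝ) / 2 ^ n)

/-- the cube number `q` of level `n` -/
def cube (n : ℕ) (q : Fin d → ℤ) : Set (EuclideanSpace ℝ (Fin d)) := {z | fl n z = q}

theorem fl_corner {n' n : ℕ} (h : n' ≤ n) (z : EuclideanSpace ℝ (Fin d)) :
    fl n' (corner n (fl n z)) = fl n' z := by
  funext i
  obtain ⟨k, rfl⟩ := Nat.exists_eq_add_of_le h
  simp only [fl, corner]
  symm
  have hD : (0 : ℝ) < 2 ^ k := by positivity
  have hD' : (0 : ℝ) < 2 ^ n' := by positivity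
  have e1 : (2 : ℝ) ^ n' * ((⌊(2 : ℝ) ^ (n' + k) * z i⌋ : ℝ) / 2 ^ (n' + k)) =
      (⌊(2 : ℝ) ^ (n' + k) * z i⌋ : ℝ) / 2 ^ k := by
    rw [pow_add]; field_simp
  rw [e1]
  rw [Int.floor_eq_iff]
  set q : ℤ := ⌊(2 : ℝ) ^ (n' + k) * z i⌋ with hq
  have h1 : (q : ℝ) ≤ (2 : ℝ) ^ (n' + k) * z i := Int.floor_le _
  constructor
  · have h2 : ((⌊(q : ℝ) / 2 ^ k⌋ : ℤ) : ℝ) ≤ (q : ℝ) / 2 ^ k := Int.floor_le _
    have h3 : (q : ℝ) / 2 ^ k ≤ 2 ^ n' * z i := by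
      rw [div_le_iff₀ hD]
      calc (q : ℝ) ≤ (2 : ℝ) ^ (n' + k) * z i := h1
        _ = _ := by rw [pow_add]; ring
    linarith
  · by_contra hcon
    push Not at hcon
    have h4 : ((⌊(q : ℝ) / 2 ^ k⌋ : ℤ) : ℝ) + 1 ≤ 2 ^ n' * z i := hcon
    have h5 : (((⌊(q : ℝ) / 2 ^ k⌋ + 1) * 2 ^ k : ℤ) : ℝ) ≤ (2 : ℝ) ^ (n' + k) * z i := by
      push_cast
      calc ((⌊(q : ℝ) / 2 ^ k⌋ : ℝ) + 1) * 2 ^ k ≤ (2 ^ n' * z i) * 2 ^ k :=
            mul_le_mul_of_nonneg_right h4 hD.le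
        _ = _ := by rw [pow_add]; ring
    have h6 : (⌊(q : ℝ) / 2 ^ k⌋ + 1) * 2 ^ k ≤ q := Int.le_floor.2 h5
    have h7 : (((⌊(q : ℝ) / 2 ^ k⌋ + 1) * 2 ^ k : ℤ) : ℝ) ≤ q := by exact_mod_cast h6
    push_cast at h7
    have h8 : (q : ℝ) / 2 ^ k < (⌊(q : ℝ) / 2 ^ k⌋ : ℝ) + 1 := Int.lt_floor_add_one _
    rw [div_lt_iff₀ hD] at h8
    linarith

/-- weight above the cube -/
noncomputable def above (w : ℕ → (Fin d → ℤ) → ℝ≥0∞) (n : ℕ) (z : EuclideanSpace ℝ (Fin d)) : ℝ≥0∞ :=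
  ∑ n' ∈ Finset.range n, w n' (fl n' z)

theorem above_corner (w : ℕ → (Fin d → ℤ) → ℝ≥0∞) (n : ℕ) (z : EuclideanSpace ℝ (Fin d)) :
    above w n (corner n (fl n z)) = above w n z := by
  refine Finset.sum_congr rfl fun n' hn' => ?_
  rw [fl_corner (Finset.mem_range.1 hn').le]

theorem volume_threshold (a w : ℝ≥0∞) :
    volume ({τ : ℝ | a ≤ ENNReal.ofReal τ ∧ ENNReal.ofReal τ < a + w} ∩ Ioo 0 1) ≤ w := by
  rcases eq_or_ne a ⊤ with rfl | ha
  · have : ({τ : ℝ | (⊤ : ℝ≥0∞) ≤ ENNReal.ofReal τ ∧ ENNReal.ofReal τ < ⊤ + w} ∩ Ioo (0:ℝ) 1) = ∅ := by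
      ext τ
      simp
    rw [this]; simp
  rcases eq_or_ne w ⊤ with rfl | hw
  · exact le_top
  have hsub : ({τ : ℝ | a ≤ ENNReal.ofReal τ ∧ ENNReal.ofReal τ < a + w} ∩ Ioo 0 1) ⊆
      Ico a.toReal (a.toReal + w.toReal) := by
    rintro τ ⟨⟨h1, h2⟩, h3⟩
    constructor
    · exact ENNReal.toReal_le_of_le_ofReal h3.1.le h1
    · rw [← ENNReal.toReal_add ha hw]
      exact (ENNReal.ofReal_lt_iff_lt_toReal h3.1.le (ENNReal.add_ne_top.2 ⟨ha, hw⟩)).1 h2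
  refine (measure_mono hsub).trans ?_
  rw [Real.volume_Ico, add_sub_cancel_left, ENNReal.ofReal_toReal hw]

/-- **Fractional covers by dyadic cubes.** -/
theorem exists_cover (w : ℕ → (Fin d → ℤ) → ℝ≥0∞) (A : Set (EuclideanSpace ℝ (Fin d)))
    (hA : ∀ z ∈ A, 1 ≤ ∑' n, w n (fl n z)) (p : ℕ → ℝ≥0∞) :
    ∃ S : Set (ℕ × (Fin d → ℤ)), (∀ i ∈ S, w i.1 i.2 ≠ 0) ∧ (A ⊆ ⋃ i ∈ S, cube i.1 i.2) ∧
      ∑' i : ℕ × (Fin d → ℤ), S.indicator (fun i => p i.1) i ≤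
        ∑' i : ℕ × (Fin d → ℤ), w i.1 i.2 * p i.1 := by
  classical
  let S : ℝ → Set (ℕ × (Fin d → ℤ)) := fun τ =>
    {i | above w i.1 (corner i.1 i.2) ≤ ENNReal.ofReal τ ∧
      ENNReal.ofReal τ < above w i.1 (corner i.1 i.2) + w i.1 i.2}
  let T : (ℕ × (Fin d → ℤ)) → Set ℝ := fun i =>
    {τ : ℝ | above w i.1 (corner i.1 i.2) ≤ ENNReal.ofReal τ ∧
      ENNReal.ofReal τ < above w i.1 (corner i.1 i.2) + w i.1 i.2}
  have hT : ∀ i, MeasurableSet (T i) := fun i =>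
    (measurableSet_le measurable_const ENNReal.measurable_ofReal).inter
      (measurableSet_lt ENNReal.measurable_ofReal measurable_const)
  let μ : Measure ℝ := volume.restrict (Ioo (0 : ℝ) 1)
  haveI : IsProbabilityMeasure μ := ⟨by simp [μ]⟩
  let f : ℝ → ℝ≥0∞ := fun τ => ∑' i : ℕ × (Fin d → ℤ), (S τ).indicator (fun i => p i.1) i
  have hf' : ∀ τ, f τ = ∑' i : ℕ × (Fin d → ℤ), (T i).indicator (fun _ => p i.1) τ := by
    intro τ
    refine tsum_congr fun i => ?_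
    simp only [Set.indicator]
    rfl
  have hfm : Measurable f := by
    have : f = fun τ => ∑' i : ℕ × (Fin d → ℤ), (T i).indicator (fun _ => p i.1) τ := funext hf'
    rw [this]
    exact Measurable.tsum fun i => measurable_const.indicator (hT i)
  have hint : ∫⁻ τ, f τ ∂μ ≤ ∑' i : ℕ × (Fin d → ℤ), w i.1 i.2 * p i.1 := by
    simp_rw [hf']
    rw [lintegral_tsum fun i => (measurable_const.indicator (hT i)).aemeasurable]
    refine ENNReal.tsum_le_tsum fun i => ?_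
    rw [lintegral_indicator (hT i), setLIntegral_const, mul_comm]
    refine mul_le_mul_left ?_ _
    rw [Measure.restrict_apply (hT i)]
    exact volume_threshold _ _
  obtain ⟨τ, hτ, hτ2⟩ := exists_notMem_null_le_lintegral (μ := μ) hfm.aemeasurable
    (N := (Ioo (0 : ℝ) 1)ᶜ) (by simp [μ])
  rw [mem_compl_iff, not_not] at hτ
  refine ⟨S τ, ?_, ?_, hτ2.trans hint⟩
  · rintro i ⟨h1, h2⟩ h3
    rw [h3, add_zero] at h2
    exact absurd h1 (not_le.2 h2)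
  · intro z hz
    have h1 : ENNReal.ofReal τ < ∑' n, w n (fl n z) := by
      refine lt_of_lt_of_le ?_ (hA z hz)
      rw [← ENNReal.ofReal_one]
      exact (ENNReal.ofReal_lt_ofReal_iff one_pos).2 hτ.2
    rw [ENNReal.tsum_eq_iSup_nat] at h1
    obtain ⟨n, hn⟩ := lt_iSup_iff.1 h1
    have hex : ∃ n, ENNReal.ofReal τ < above w n z := ⟨n, hn⟩
    have h2 := Nat.find_spec hex
    have h0 : Nat.find hex ≠ 0 := by
      intro h0
      rw [h0] at h2
      simp [above] at h2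
    obtain ⟨m, hm⟩ := Nat.exists_eq_succ_of_ne_zero h0
    have h3 : above w m z ≤ ENNReal.ofReal τ := by
      have := Nat.find_min hex (m := m) (by omega)
      exact not_lt.1 this
    rw [hm] at h2
    refine mem_iUnion₂.2 ⟨(m, fl m z), ⟨?_, ?_⟩, rfl⟩
    · change above w m (corner m (fl m z)) ≤ _
      rw [above_corner]; exact h3
    · change _ < above w m (corner m (fl m z)) + w m (fl m z)
      rw [above_corner]
      have : above w (m + 1) z = above w m z + w m (fl m z) := Finset.sum_range_succ _ _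
      rw [← this]
      exact h2

end Pool.Agent.Q321.Kk
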